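import Mathlib

/-!
# Truncated octahedra have more touching triplets and quadruples than octahedra

The packing of `n k = (2 k ^ 3 + k) / 3` unit balls whose centers form an octahedral piece of the
face-centered cubic lattice has `t k` touching triplets and `q k` touching quadruples. We cut two
opposite vertices of the slightly larger octahedron with `k + 1` balls on an edge by pyramids of
heights `p₁, p₂` (about `1.44 k ^ (2 / 3)`), and show that for every `k ≥ 1000` the heights can be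
chosen such that there remain at most `n k` balls, with more than `t k` touching triplets and
more than `q k` touching quadruples; the missing balls are added far away. So both questions of
the problem have a negative answer, for all large `k`.
-/

set_option autoImplicit false

namespace Pool.Agent.Results.MP_b59a08_co.TruncatedOctahedra

open Finset

/-- Euclidean 3-space. -/
abbrev E3 := EuclideanSpace ℝ (Fin 3)

/-- The closed unit balls centered at the points of `C` have pairwise disjoint interiors. -/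
def IsPacking (C : Finset E3) : Prop :=
  ∀ x ∈ C, ∀ y ∈ C, x ≠ y →
    Disjoint (interior (Metric.closedBall x 1)) (interior (Metric.closedBall y 1))

/-- The number of sets of `m` pairwise touching unit balls with centers in `C`
(two balls touch if their centers are at distance exactly `2`). -/
noncomputable def touching (m : ℕ) (C : Finset E3) : ℕ :=
  {s : Finset E3 | s ⊆ C ∧ s.card = m ∧ ∀ x ∈ s, ∀ y ∈ s, x ≠ y → dist x y = 2}.ncard

/-- The number `n_k` of balls. -/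
def nk (k : ℕ) : ℕ := (2 * k ^ 3 + k) / 3

/-- The number `t_k` of touching triplets of the octahedral packing. -/
def tk (k : ℕ) : ℚ := 4 / 3 * ((k : ℚ) - 1) * k * (4 * k - 5)

/-- The number `q_k` of touching quadruples of the octahedral packing. -/
def qk (k : ℕ) : ℚ := 4 / 3 * ((k : ℚ) - 2) * (k - 1) * k

/-- The statement asked in Q1. -/
def Q1 : Prop := ∃ k₃ : ℕ, 0 < k₃ ∧ ∀ k : ℕ, k₃ ≤ k → ∀ C : Finset E3,
  IsPacking C → C.card = nk k → (touching 3 C : ℚ) ≤ tk k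

/-- The statement asked in Q2. -/
def Q2 : Prop := ∃ k₄ : ℕ, 0 < k₄ ∧ ∀ k : ℕ, k₄ ≤ k → ∀ C : Finset E3,
  IsPacking C → C.card = nk k → (touching 4 C : ℚ) ≤ qk k

/-! ### Integral points -/

/-- integral coordinates -/
abbrev P3 := ℤ × ℤ × ℤ

/-- squared distance -/
def q (v w : P3) : ℤ := (v.1 - w.1) ^ 2 + (v.2.1 - w.2.1) ^ 2 + 2 * (v.2.2 - w.2.2) ^ 2

theorem q_comm (v w : P3) : q v w = q w v := by
  unfold q
  ring

theorem ne_of_q {v w : P3} (h : q v w = 4) : v ≠ w := by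
  rintro rfl
  simp [q] at h

/-- cliques -/
def cl (m : ℕ) (S : Finset P3) : Finset (Finset P3) :=
  (S.powersetCard m).filter (fun s => ∀ x ∈ s, ∀ y ∈ s, x ≠ y → q x y = 4)

theorem mem_cl {m : ℕ} {S : Finset P3} {s : Finset P3} :
    s ∈ cl m S ↔ (s ⊆ S ∧ s.card = m) ∧ ∀ x ∈ s, ∀ y ∈ s, x ≠ y → q x y = 4 := by
  simp [cl, mem_powersetCard]

theorem cl_mono {m : ℕ} {S T : Finset P3} (h : S ⊆ T) : cl m S ⊆ cl m T := by
  intro s hs
  rw [mem_cl] at hs ⊢
  exact ⟨⟨hs.1.1.trans h, hs.1.2⟩, hs.2⟩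

theorem mem_cl3 {S : Finset P3} {a b c : P3} (ha : a ∈ S) (hb : b ∈ S) (hc : c ∈ S)
    (hab : q a b = 4) (hac : q a c = 4) (hbc : q b c = 4) : ({a, b, c} : Finset P3) ∈ cl 3 S := by
  have hba := (q_comm b a).trans hab
  have hca := (q_comm c a).trans hac
  have hcb := (q_comm c b).trans hbc
  rw [mem_cl]
  refine ⟨⟨?_, ?_⟩, ?_⟩
  · intro x hx
    simp only [mem_insert, mem_singleton] at hx
    rcases hx with rfl | rfl | rfl <;> assumption
  · exact card_eq_three.2 ⟨a, b, c, ne_of_q hab, ne_of_q hac, ne_of_q hbc, rfl⟩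
  · intro x hx y hy hxy
    simp only [mem_insert, mem_singleton] at hx hy
    rcases hx with rfl | rfl | rfl <;> rcases hy with rfl | rfl | rfl <;>
      first | exact absurd rfl hxy | assumption

theorem mem_cl4 {S : Finset P3} {a b c d : P3} (ha : a ∈ S) (hb : b ∈ S) (hc : c ∈ S) (hd : d ∈ S)
    (hab : q a b = 4) (hac : q a c = 4) (had : q a d = 4) (hbc : q b c = 4) (hbd : q b d = 4)
    (hcd : q c d = 4) : ({a, b, c, d} : Finset P3) ∈ cl 4 S := by
  have hba := (q_comm b a).trans hab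
  have hca := (q_comm c a).trans hac
  have hda := (q_comm d a).trans had
  have hcb := (q_comm c b).trans hbc
  have hdb := (q_comm d b).trans hbd
  have hdc := (q_comm d c).trans hcd
  rw [mem_cl]
  refine ⟨⟨?_, ?_⟩, ?_⟩
  · intro x hx
    simp only [mem_insert, mem_singleton] at hx
    rcases hx with rfl | rfl | rfl | rfl <;> assumption
  · rw [card_insert_of_notMem, card_eq_three.2 ⟨b, c, d, ne_of_q hbc, ne_of_q hbd, ne_of_q hcd, rfl⟩]
    simp only [mem_insert, mem_singleton, not_or]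
    exact ⟨ne_of_q hab, ne_of_q hac, ne_of_q had⟩
  · intro x hx y hy hxy
    simp only [mem_insert, mem_singleton] at hx hy
    rcases hx with rfl | rfl | rfl | rfl <;> rcases hy with rfl | rfl | rfl | rfl <;>
      first | exact absurd rfl hxy | assumption

theorem sum3 {a b c : P3} (hab : q a b = 4) (hac : q a c = 4) (hbc : q b c = 4) :
    ∑ v ∈ ({a, b, c} : Finset P3), v = a + b + c := by
  rw [sum_insert, sum_insert, sum_singleton, add_assoc]
  · simpa using ne_of_q hbc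
  · simp only [mem_insert, mem_singleton, not_or]
    exact ⟨ne_of_q hab, ne_of_q hac⟩

theorem sum4 {a b c d : P3} (hab : q a b = 4) (hac : q a c = 4) (had : q a d = 4)
    (hbc : q b c = 4) (hbd : q b d = 4) (hcd : q c d = 4) :
    ∑ v ∈ ({a, b, c, d} : Finset P3), v = a + b + c + d := by
  rw [sum_insert, sum3 hbc hbd hcd]
  · simp only [add_assoc]
  · simp only [mem_insert, mem_singleton, not_or]
    exact ⟨ne_of_q hab, ne_of_q hac, ne_of_q had⟩

theorem card_cl_add {r : ℕ} {S S' : Finset P3} (A : Finset (Finset P3)) (h : S ⊆ S')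
    (hA : A ⊆ cl r S') (hn : ∀ s ∈ A, ∃ v ∈ s, v ∉ S) :
    (cl r S).card + A.card ≤ (cl r S').card := by
  rw [← card_union_of_disjoint]
  · exact card_le_card (union_subset (cl_mono h) hA)
  · rw [disjoint_left]
    intro s hs hs'
    obtain ⟨v, hv, hvS⟩ := hn s hs'
    rw [mem_cl] at hs
    exact hvS (hs.1.1 hv)

/-! ### Square layers -/

/-- the balls of a square layer of side `m` at height `h` -/
def U (m : ℕ) (h : ℤ) (i j : ℕ) : P3 := (2 * (i : ℤ) - m + 1, 2 * (j : ℤ) - m + 1, h)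

/-- a square layer of side `m` at height `h` -/
def sq (m : ℕ) (h : ℤ) : Finset P3 := (range m ×ˢ range m).image (fun a => U m h a.1 a.2)

theorem U_mem {m : ℕ} {h : ℤ} {i j : ℕ} (hi : i < m) (hj : j < m) : U m h i j ∈ sq m h := by
  rw [sq, mem_image]
  exact ⟨(i, j), by simp [hi, hj], rfl⟩

theorem card_sq (m : ℕ) (h : ℤ) : (sq m h).card = m * m := by
  rw [sq, card_image_of_injective, card_product, card_range]
  rintro ⟨i, j⟩ ⟨i', j'⟩ hij
  simp only [U, Prod.mk.injEq] at hij ⊢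
  omega

theorem mem_sq {m : ℕ} {h : ℤ} {v : P3} (hv : v ∈ sq m h) :
    v.2.2 = h ∧ (v.1 + m + 1) % 2 = 0 ∧ (v.2.1 + m + 1) % 2 = 0 ∧ v.1 ≤ m := by
  rw [sq, mem_image] at hv
  obtain ⟨⟨i, j⟩, hij, rfl⟩ := hv
  simp only [mem_product, mem_range] at hij
  dsimp only [U]
  refine ⟨rfl, ?_, ?_, ?_⟩ <;> omega

/-- the triangles between two layers -/
def T3 (m : ℕ) (h h' : ℤ) (t : Fin 8) (a : ℕ × ℕ) : P3 × P3 × P3 :=
  match t with
  | 0 => (U m h a.1 a.2, U (m + 1) h' a.1 a.2, U (m + 1) h' (a.1 + 1) a.2)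
  | 1 => (U m h a.1 a.2, U (m + 1) h' a.1 a.2, U (m + 1) h' a.1 (a.2 + 1))
  | 2 => (U m h a.1 a.2, U (m + 1) h' (a.1 + 1) a.2, U (m + 1) h' (a.1 + 1) (a.2 + 1))
  | 3 => (U m h a.1 a.2, U (m + 1) h' a.1 (a.2 + 1), U (m + 1) h' (a.1 + 1) (a.2 + 1))
  | 4 => (U m h a.1 a.2, U m h (a.1 + 1) a.2, U (m + 1) h' (a.1 + 1) a.2)
  | 5 => (U m h a.1 a.2, U m h (a.1 + 1) a.2, U (m + 1) h' (a.1 + 1) (a.2 + 1))
  | 6 => (U m h a.1 a.2, U m h a.1 (a.2 + 1), U (m + 1) h' a.1 (a.2 + 1))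
  | 7 => (U m h a.1 a.2, U m h a.1 (a.2 + 1), U (m + 1) h' (a.1 + 1) (a.2 + 1))

/-- their index sets -/
def D3 (m : ℕ) (t : Fin 8) : Finset (ℕ × ℕ) :=
  match t with
  | 0 => range m ×ˢ range m
  | 1 => range m ×ˢ range m
  | 2 => range m ×ˢ range m
  | 3 => range m ×ˢ range m
  | 4 => range (m - 1) ×ˢ range m
  | 5 => range (m - 1) ×ˢ range m
  | 6 => range m ×ˢ range (m - 1)
  | 7 => range m ×ˢ range (m - 1)

theorem T3_q (m : ℕ) (h h' : ℤ) (hh : h = h' + 1 ∨ h = h' - 1) (t : Fin 8) (a : ℕ × ℕ) :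
    q (T3 m h h' t a).1 (T3 m h h' t a).2.1 = 4 ∧ q (T3 m h h' t a).1 (T3 m h h' t a).2.2 = 4 ∧
      q (T3 m h h' t a).2.1 (T3 m h h' t a).2.2 = 4 := by
  rcases hh with rfl | rfl <;> fin_cases t <;> simp only [T3, U, q] <;> push_cast <;>
    refine ⟨?_, ?_, ?_⟩ <;> ring

theorem T3_mem (m : ℕ) (h h' : ℤ) (S : Finset P3) (h1 : sq m h ⊆ S) (h2 : sq (m + 1) h' ⊆ S)
    (t : Fin 8) (a : ℕ × ℕ) (ha : a ∈ D3 m t) :
    (T3 m h h' t a).1 ∈ S ∧ (T3 m h h' t a).2.1 ∈ S ∧ (T3 m h h' t a).2.2 ∈ S := by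
  fin_cases t <;> simp only [D3, mem_product, mem_range] at ha <;> simp only [T3] <;>
    refine ⟨?_, ?_, ?_⟩ <;>
    first
      | exact h1 (U_mem (by omega) (by omega))
      | exact h2 (U_mem (by omega) (by omega))

theorem T3_fst (m : ℕ) (h h' : ℤ) (t : Fin 8) (a : ℕ × ℕ) : (T3 m h h' t a).1.2.2 = h := by
  fin_cases t <;> rfl

/-- triangle as a set -/
def F3 (m : ℕ) (h h' : ℤ) (x : (_ : Fin 8) × (ℕ × ℕ)) : Finset P3 :=
  {(T3 m h h' x.1 x.2).1, (T3 m h h' x.1 x.2).2.1, (T3 m h h' x.1 x.2).2.2}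

theorem F3_inj (m : ℕ) (h h' : ℤ) (hh : h = h' + 1 ∨ h = h' - 1) :
    Function.Injective (F3 m h h') := by
  rintro ⟨t, i, j⟩ ⟨t', i', j'⟩ hx
  have hs := congrArg (fun s : Finset P3 => ∑ v ∈ s, v) hx
  obtain ⟨e1, e2, e3⟩ := T3_q m h h' hh t (i, j)
  obtain ⟨e1', e2', e3'⟩ := T3_q m h h' hh t' (i', j')
  simp only [F3] at hs
  rw [sum3 e1 e2 e3, sum3 e1' e2' e3'] at hs
  clear e1 e2 e3 e1' e2' e3' hx
  fin_cases t <;> fin_cases t' <;>
    simp only [T3, U, Prod.mk_add_mk, Prod.mk.injEq] at hs <;> push_cast at hs <;>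
    first
      | (exfalso; omega)
      | (have h1 : i = i' := by omega
         have h2 : j = j' := by omega
         rw [h1, h2])

/-- the tetrahedra between two layers -/
def T4 (m : ℕ) (h h' : ℤ) (t : Fin 2) (a : ℕ × ℕ) : P3 × P3 × P3 × P3 :=
  match t with
  | 0 => (U m h a.1 a.2, U m h (a.1 + 1) a.2, U (m + 1) h' (a.1 + 1) a.2,
      U (m + 1) h' (a.1 + 1) (a.2 + 1))
  | 1 => (U m h a.1 a.2, U m h a.1 (a.2 + 1), U (m + 1) h' a.1 (a.2 + 1),
      U (m + 1) h' (a.1 + 1) (a.2 + 1))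

/-- their index sets -/
def D4 (m : ℕ) (t : Fin 2) : Finset (ℕ × ℕ) :=
  match t with
  | 0 => range (m - 1) ×ˢ range m
  | 1 => range m ×ˢ range (m - 1)

theorem T4_q (m : ℕ) (h h' : ℤ) (hh : h = h' + 1 ∨ h = h' - 1) (t : Fin 2) (a : ℕ × ℕ) :
    q (T4 m h h' t a).1 (T4 m h h' t a).2.1 = 4 ∧ q (T4 m h h' t a).1 (T4 m h h' t a).2.2.1 = 4 ∧
      q (T4 m h h' t a).1 (T4 m h h' t a).2.2.2 = 4 ∧
      q (T4 m h h' t a).2.1 (T4 m h h' t a).2.2.1 = 4 ∧
      q (T4 m h h' t a).2.1 (T4 m h h' t a).2.2.2 = 4 ∧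
      q (T4 m h h' t a).2.2.1 (T4 m h h' t a).2.2.2 = 4 := by
  rcases hh with rfl | rfl <;> fin_cases t <;> simp only [T4, U, q] <;> push_cast <;>
    refine ⟨?_, ?_, ?_, ?_, ?_, ?_⟩ <;> ring

theorem T4_mem (m : ℕ) (h h' : ℤ) (S : Finset P3) (h1 : sq m h ⊆ S) (h2 : sq (m + 1) h' ⊆ S)
    (t : Fin 2) (a : ℕ × ℕ) (ha : a ∈ D4 m t) :
    (T4 m h h' t a).1 ∈ S ∧ (T4 m h h' t a).2.1 ∈ S ∧ (T4 m h h' t a).2.2.1 ∈ S ∧
      (T4 m h h' t a).2.2.2 ∈ S := by
  fin_cases t <;> simp only [D4, mem_product, mem_range] at ha <;> simp only [T4] <;>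
    refine ⟨?_, ?_, ?_, ?_⟩ <;>
    first
      | exact h1 (U_mem (by omega) (by omega))
      | exact h2 (U_mem (by omega) (by omega))

theorem T4_fst (m : ℕ) (h h' : ℤ) (t : Fin 2) (a : ℕ × ℕ) : (T4 m h h' t a).1.2.2 = h := by
  fin_cases t <;> rfl

/-- tetrahedron as a set -/
def F4 (m : ℕ) (h h' : ℤ) (x : (_ : Fin 2) × (ℕ × ℕ)) : Finset P3 :=
  {(T4 m h h' x.1 x.2).1, (T4 m h h' x.1 x.2).2.1, (T4 m h h' x.1 x.2).2.2.1,
    (T4 m h h' x.1 x.2).2.2.2}

theorem F4_inj (m : ℕ) (h h' : ℤ) (hh : h = h' + 1 ∨ h = h' - 1) :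
    Function.Injective (F4 m h h') := by
  rintro ⟨t, i, j⟩ ⟨t', i', j'⟩ hx
  have hs := congrArg (fun s : Finset P3 => ∑ v ∈ s, v) hx
  obtain ⟨e1, e2, e3, e4, e5, e6⟩ := T4_q m h h' hh t (i, j)
  obtain ⟨e1', e2', e3', e4', e5', e6'⟩ := T4_q m h h' hh t' (i', j')
  simp only [F4] at hs
  rw [sum4 e1 e2 e3 e4 e5 e6, sum4 e1' e2' e3' e4' e5' e6'] at hs
  clear e1 e2 e3 e1' e2' e3' e4 e5 e6 e4' e5' e6' hx
  fin_cases t <;> fin_cases t' <;>
    simp only [T4, U, Prod.mk_add_mk, Prod.mk.injEq] at hs <;> push_cast at hs <;>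
    first
      | (exfalso; omega)
      | (have h1 : i = i' := by omega
         have h2 : j = j' := by omega
         rw [h1, h2])

theorem add_layer (S : Finset P3) (m : ℕ) (h h' : ℤ) (hh : h = h' + 1 ∨ h = h' - 1)
    (hsub : sq (m + 1) h' ⊆ S) (hne : ∀ v ∈ S, v.2.2 ≠ h) :
    (S ∪ sq m h).card = S.card + m * m ∧
      (cl 3 S).card + (4 * (m * m) + 4 * (m * (m - 1))) ≤ (cl 3 (S ∪ sq m h)).card ∧
      (cl 4 S).card + 2 * (m * (m - 1)) ≤ (cl 4 (S ∪ sq m h)).card := by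
  refine ⟨?_, ?_, ?_⟩
  · rw [card_union_of_disjoint, card_sq]
    rw [disjoint_left]
    intro v hv hv'
    exact hne v hv (mem_sq hv').1
  · have hA : ((univ.sigma (D3 m)).image (F3 m h h')).card
        = 4 * (m * m) + 4 * (m * (m - 1)) := by
      rw [card_image_of_injective _ (F3_inj m h h' hh), card_sigma]
      simp only [Fin.sum_univ_eight, D3, card_product, card_range]
      ring
    rw [← hA]
    refine card_cl_add _ subset_union_left ?_ ?_
    · intro s hs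
      rw [mem_image] at hs
      obtain ⟨⟨t, a⟩, hx, rfl⟩ := hs
      rw [mem_sigma] at hx
      obtain ⟨m1, m2, m3⟩ := T3_mem m h h' (S ∪ sq m h) subset_union_right
        (hsub.trans subset_union_left) t a hx.2
      obtain ⟨e1, e2, e3⟩ := T3_q m h h' hh t a
      exact mem_cl3 m1 m2 m3 e1 e2 e3
    · intro s hs
      rw [mem_image] at hs
      obtain ⟨⟨t, a⟩, hx, rfl⟩ := hs
      refine ⟨(T3 m h h' t a).1, by simp [F3], ?_⟩
      intro hmem
      exact hne _ hmem (T3_fst m h h' t a)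
  · have hA : ((univ.sigma (D4 m)).image (F4 m h h')).card = 2 * (m * (m - 1)) := by
      rw [card_image_of_injective _ (F4_inj m h h' hh), card_sigma]
      simp only [Fin.sum_univ_two, D4, card_product, card_range]
      ring
    rw [← hA]
    refine card_cl_add _ subset_union_left ?_ ?_
    · intro s hs
      rw [mem_image] at hs
      obtain ⟨⟨t, a⟩, hx, rfl⟩ := hs
      rw [mem_sigma] at hx
      obtain ⟨m1, m2, m3, m4⟩ := T4_mem m h h' (S ∪ sq m h) subset_union_right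
        (hsub.trans subset_union_left) t a hx.2
      obtain ⟨e1, e2, e3, e4, e5, e6⟩ := T4_q m h h' hh t a
      exact mem_cl4 m1 m2 m3 m4 e1 e2 e3 e4 e5 e6
    · intro s hs
      rw [mem_image] at hs
      obtain ⟨⟨t, a⟩, hx, rfl⟩ := hs
      refine ⟨(T4 m h h' t a).1, by simp [F4], ?_⟩
      intro hmem
      exact hne _ hmem (T4_fst m h h' t a)

/-! ### The truncated octahedra -/

/-- the properties of the stack of layers from height `-b` to height `a` -/
structure Inv (K a b : ℕ) (S : Finset P3) : Prop where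
  par : ∀ v ∈ S, (v.1 + v.2.2 + K + 1) % 2 = 0 ∧ (v.2.1 + v.2.2 + K + 1) % 2 = 0
  hgt : ∀ v ∈ S, -(b : ℤ) ≤ v.2.2 ∧ v.2.2 ≤ a
  bdd : ∀ v ∈ S, v.1 ≤ K
  top : sq (K - a) a ⊆ S
  bot : sq (K - b) (-(b : ℤ)) ⊆ S
  num : 6 * (S.card : ℤ) = 4 * K ^ 3 + 2 * K
    - ((K : ℤ) - 1 - a) * (K - a) * (2 * (K - 1 - a) + 1)
    - ((K : ℤ) - 1 - b) * (K - b) * (2 * (K - 1 - b) + 1)
  tri : 4 * ((K : ℤ) - 1) * K * (4 * K - 5)
    - 2 * (((K : ℤ) - 1 - a) * (K - a) * (4 * (K - 1 - a) - 1))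
    - 2 * (((K : ℤ) - 1 - b) * (K - b) * (4 * (K - 1 - b) - 1)) ≤ 3 * ((cl 3 S).card : ℤ)
  tet : 4 * ((K : ℤ) - 2) * (K - 1) * K
    - 2 * (((K : ℤ) - 2 - a) * (K - 1 - a) * (K - a))
    - 2 * (((K : ℤ) - 2 - b) * (K - 1 - b) * (K - b)) ≤ 3 * ((cl 4 S).card : ℤ)

theorem inv_zero (K : ℕ) : Inv K 0 0 (sq K 0) where
  par v hv := by
    have := mem_sq hv
    omega
  hgt v hv := by
    have := mem_sq hv
    omega
  bdd v hv := (mem_sq hv).2.2.2
  top := by simp
  bot := by simp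
  num := by
    rw [card_sq]
    push_cast
    ring
  tri := by
    have : (0 : ℤ) ≤ ((cl 3 (sq K 0)).card : ℤ) := by positivity
    push_cast
    nlinarith
  tet := by
    have : (0 : ℤ) ≤ ((cl 4 (sq K 0)).card : ℤ) := by positivity
    push_cast
    nlinarith

theorem inv_up (K a b : ℕ) (ha : a + 1 < K) (S : Finset P3) (h : Inv K a b S) :
    ∃ S', Inv K (a + 1) b S' := by
  obtain ⟨m, hm⟩ : ∃ m, K = m + 1 + a + 1 := ⟨K - a - 2, by omega⟩
  have hKa : K - a = (m + 1) + 1 := by omega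
  have hKa' : K - (a + 1) = m + 1 := by omega
  have hsub : sq ((m + 1) + 1) (a : ℤ) ⊆ S := by
    rw [← hKa]
    exact h.top
  have hne : ∀ v ∈ S, v.2.2 ≠ ((a : ℤ) + 1) := by
    intro v hv
    have := h.hgt v hv
    omega
  obtain ⟨c1, c2, c3⟩ := add_layer S (m + 1) ((a : ℤ) + 1) a (Or.inl rfl) hsub hne
  have c1' : ((S ∪ sq (m + 1) ((a : ℤ) + 1)).card : ℤ) = S.card + (m + 1) * (m + 1) := by
    exact_mod_cast c1
  have c2' : ((cl 3 S).card : ℤ) + (4 * ((m + 1) * (m + 1)) + 4 * ((m + 1) * m)) ≤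
      ((cl 3 (S ∪ sq (m + 1) ((a : ℤ) + 1))).card : ℤ) := by
    rw [Nat.add_sub_cancel] at c2
    exact_mod_cast c2
  have c3' : ((cl 4 S).card : ℤ) + 2 * ((m + 1) * m) ≤
      ((cl 4 (S ∪ sq (m + 1) ((a : ℤ) + 1))).card : ℤ) := by
    rw [Nat.add_sub_cancel] at c3
    exact_mod_cast c3
  have hK : (K : ℤ) = m + 1 + a + 1 := by exact_mod_cast hm
  refine ⟨S ∪ sq (m + 1) ((a : ℤ) + 1), ?_, ?_, ?_, ?_, ?_, ?_, ?_, ?_⟩
  · intro v hv
    rw [mem_union] at hv
    rcases hv with hv | hv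
    · exact h.par v hv
    · have := mem_sq hv
      omega
  · intro v hv
    rw [mem_union] at hv
    rcases hv with hv | hv
    · have := h.hgt v hv
      omega
    · have := mem_sq hv
      omega
  · intro v hv
    rw [mem_union] at hv
    rcases hv with hv | hv
    · exact h.bdd v hv
    · have := mem_sq hv
      omega
  · rw [hKa']
    push_cast
    exact subset_union_right
  · exact h.bot.trans subset_union_left
  · rw [c1', mul_add, h.num, hK]
    push_cast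
    ring
  · have h3 := h.tri
    rw [hK] at h3 ⊢
    push_cast at h3 ⊢
    nlinarith
  · have h3 := h.tet
    rw [hK] at h3 ⊢
    push_cast at h3 ⊢
    nlinarith

theorem inv_down (K a b : ℕ) (hb : b + 1 < K) (S : Finset P3) (h : Inv K a b S) :
    ∃ S', Inv K a (b + 1) S' := by
  obtain ⟨m, hm⟩ : ∃ m, K = m + 1 + b + 1 := ⟨K - b - 2, by omega⟩
  have hKa : K - b = (m + 1) + 1 := by omega
  have hKa' : K - (b + 1) = m + 1 := by omega
  have hsub : sq ((m + 1) + 1) (-(b : ℤ)) ⊆ S := by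
    rw [← hKa]
    exact h.bot
  have hne : ∀ v ∈ S, v.2.2 ≠ (-(b : ℤ) - 1) := by
    intro v hv
    have := h.hgt v hv
    omega
  obtain ⟨c1, c2, c3⟩ := add_layer S (m + 1) (-(b : ℤ) - 1) (-(b : ℤ)) (Or.inr rfl) hsub hne
  have c1' : ((S ∪ sq (m + 1) (-(b : ℤ) - 1)).card : ℤ) = S.card + (m + 1) * (m + 1) := by
    exact_mod_cast c1
  have c2' : ((cl 3 S).card : ℤ) + (4 * ((m + 1) * (m + 1)) + 4 * ((m + 1) * m)) ≤
      ((cl 3 (S ∪ sq (m + 1) (-(b : ℤ) - 1))).card : ℤ) := by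
    rw [Nat.add_sub_cancel] at c2
    exact_mod_cast c2
  have c3' : ((cl 4 S).card : ℤ) + 2 * ((m + 1) * m) ≤
      ((cl 4 (S ∪ sq (m + 1) (-(b : ℤ) - 1))).card : ℤ) := by
    rw [Nat.add_sub_cancel] at c3
    exact_mod_cast c3
  have hK : (K : ℤ) = m + 1 + b + 1 := by exact_mod_cast hm
  refine ⟨S ∪ sq (m + 1) (-(b : ℤ) - 1), ?_, ?_, ?_, ?_, ?_, ?_, ?_, ?_⟩
  · intro v hv
    rw [mem_union] at hv
    rcases hv with hv | hv
    · exact h.par v hv
    · have := mem_sq hv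
      omega
  · intro v hv
    rw [mem_union] at hv
    rcases hv with hv | hv
    · have := h.hgt v hv
      omega
    · have := mem_sq hv
      omega
  · intro v hv
    rw [mem_union] at hv
    rcases hv with hv | hv
    · exact h.bdd v hv
    · have := mem_sq hv
      omega
  · exact h.top.trans subset_union_left
  · rw [hKa']
    have : (-((b + 1 : ℕ) : ℤ)) = -(b : ℤ) - 1 := by
      push_cast
      ring
    rw [this]
    exact subset_union_right
  · rw [c1', mul_add, h.num, hK]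
    push_cast
    ring
  · have h3 := h.tri
    rw [hK] at h3 ⊢
    push_cast at h3 ⊢
    nlinarith
  · have h3 := h.tet
    rw [hK] at h3 ⊢
    push_cast at h3 ⊢
    nlinarith

theorem exists_inv (K : ℕ) : ∀ a b : ℕ, a < K → b < K → ∃ S, Inv K a b S := by
  have h1 : ∀ a : ℕ, a < K → ∃ S, Inv K a 0 S := by
    intro a
    induction a with
    | zero => exact fun _ => ⟨_, inv_zero K⟩
    | succ a ih =>
      intro ha
      obtain ⟨S, hS⟩ := ih (by omega)
      exact inv_up K a 0 ha S hS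
  intro a b ha
  induction b with
  | zero => exact fun _ => h1 a ha
  | succ b ih =>
    intro hb
    obtain ⟨S, hS⟩ := ih (by omega)
    exact inv_down K a b hb S hS

/-- distinct points of the lattice are at distance at least two -/
theorem q_ge {K : ℕ} {v w : P3}
    (hv : (v.1 + v.2.2 + K + 1) % 2 = 0 ∧ (v.2.1 + v.2.2 + K + 1) % 2 = 0)
    (hw : (w.1 + w.2.2 + K + 1) % 2 = 0 ∧ (w.2.1 + w.2.2 + K + 1) % 2 = 0) (hvw : v ≠ w) :
    4 ≤ q v w := by
  obtain ⟨v1, v2, v3⟩ := v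
  obtain ⟨w1, w2, w3⟩ := w
  simp only [q] at *
  have hne : v1 - w1 ≠ 0 ∨ v2 - w2 ≠ 0 ∨ v3 - w3 ≠ 0 := by
    by_contra hcon
    push Not at hcon
    apply hvw
    simp only [Prod.mk.injEq]
    omega
  have hx : (v1 - w1 - (v3 - w3)) % 2 = 0 := by omega
  have hy : (v2 - w2 - (v3 - w3)) % 2 = 0 := by omega
  generalize v1 - w1 = x at *
  generalize v2 - w2 = y at *
  generalize v3 - w3 = z at *
  have key : ∀ t : ℤ, (2 ≤ t ∨ t ≤ -2) → 4 ≤ t ^ 2 := by
    intro t ht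
    rcases ht with ht | ht <;> nlinarith
  have key1 : ∀ t : ℤ, (1 ≤ t ∨ t ≤ -1) → 1 ≤ t ^ 2 := by
    intro t ht
    rcases ht with ht | ht <;> nlinarith
  have p1 : 0 ≤ x ^ 2 := sq_nonneg x
  have p2 : 0 ≤ y ^ 2 := sq_nonneg y
  have p3 : 0 ≤ z ^ 2 := sq_nonneg z
  by_cases hz0 : z = 0
  · subst hz0
    by_cases hx0 : x = 0
    · have := key y (by omega)
      omega
    · have := key x (by omega)
      omega
  · by_cases hz1 : z = 1 ∨ z = -1
    · have h1 := key1 x (by omega)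
      have h2 := key1 y (by omega)
      have h3 := key1 z (by omega)
      omega
    · have := key z (by omega)
      omega

/-- adding balls far away -/
theorem exists_config (K a b L : ℕ) (ha : a < K) (hb : b < K) :
    ∃ S : Finset P3, (∀ v ∈ S, ∀ w ∈ S, v ≠ w → 4 ≤ q v w) ∧
      6 * (S.card : ℤ) = 6 * L + (4 * K ^ 3 + 2 * K
        - ((K : ℤ) - 1 - a) * (K - a) * (2 * (K - 1 - a) + 1)
        - ((K : ℤ) - 1 - b) * (K - b) * (2 * (K - 1 - b) + 1)) ∧
      4 * ((K : ℤ) - 1) * K * (4 * K - 5)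
        - 2 * (((K : ℤ) - 1 - a) * (K - a) * (4 * (K - 1 - a) - 1))
        - 2 * (((K : ℤ) - 1 - b) * (K - b) * (4 * (K - 1 - b) - 1)) ≤ 3 * ((cl 3 S).card : ℤ) ∧
      4 * ((K : ℤ) - 2) * (K - 1) * K
        - 2 * (((K : ℤ) - 2 - a) * (K - 1 - a) * (K - a))
        - 2 * (((K : ℤ) - 2 - b) * (K - 1 - b) * (K - b)) ≤ 3 * ((cl 4 S).card : ℤ) := by
  obtain ⟨S, hS⟩ := exists_inv K a b ha hb
  let f : ℕ → P3 := fun t => ((K : ℤ) + 2 + 2 * t, 0, 0)
  have hf : Function.Injective f := by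
    intro s t hst
    simp only [f, Prod.mk.injEq] at hst
    omega
  have hE : ∀ v ∈ (range L).image f, ∃ t : ℕ, v = f t := by
    intro v hv
    rw [mem_image] at hv
    obtain ⟨t, _, rfl⟩ := hv
    exact ⟨t, rfl⟩
  have hdist : ∀ v ∈ S, ∀ t : ℕ, 4 ≤ q v (f t) := by
    intro v hv t
    have := hS.bdd v hv
    simp only [q, f]
    have h1 : (2 : ℤ) ≤ (K : ℤ) + 2 + 2 * t - v.1 := by omega
    nlinarith [sq_nonneg (v.2.1 - 0), sq_nonneg (v.2.2 - 0)]
  refine ⟨S ∪ (range L).image f, ?_, ?_, ?_, ?_⟩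
  · intro v hv w hw hvw
    rw [mem_union] at hv hw
    rcases hv with hv | hv <;> rcases hw with hw | hw
    · exact q_ge (hS.par v hv) (hS.par w hw) hvw
    · obtain ⟨t, rfl⟩ := hE w hw
      exact hdist v hv t
    · obtain ⟨t, rfl⟩ := hE v hv
      rw [q_comm]
      exact hdist w hw t
    · obtain ⟨s, rfl⟩ := hE v hv
      obtain ⟨t, rfl⟩ := hE w hw
      have hst : s ≠ t := by
        rintro rfl
        exact hvw rfl
      simp only [q, f]
      rcases lt_or_gt_of_ne hst with h | h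
      · have h1 : (2 : ℤ) ≤ (2 * t - 2 * s : ℤ) := by omega
        nlinarith
      · have h1 : (2 : ℤ) ≤ (2 * s - 2 * t : ℤ) := by omega
        nlinarith
  · rw [card_union_of_disjoint, card_image_of_injective _ hf, card_range]
    · push_cast
      rw [mul_add, hS.num]
      ring
    · rw [disjoint_left]
      intro v hv hv'
      obtain ⟨t, rfl⟩ := hE v hv'
      have := hdist _ hv t
      simp [q] at this
  · refine hS.tri.trans ?_
    have : (cl 3 S).card ≤ (cl 3 (S ∪ (range L).image f)).card :=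
      card_le_card (cl_mono subset_union_left)
    have h2 : ((cl 3 S).card : ℤ) ≤ (cl 3 (S ∪ (range L).image f)).card := by exact_mod_cast this
    omega
  · refine hS.tet.trans ?_
    have : (cl 4 S).card ≤ (cl 4 (S ∪ (range L).image f)).card :=
      card_le_card (cl_mono subset_union_left)
    have h2 : ((cl 4 S).card : ℤ) ≤ (cl 4 (S ∪ (range L).image f)).card := by exact_mod_cast this
    omega

/-! ### Transfer to Euclidean space -/

/-- the point with given integral coordinates -/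
noncomputable def phi (v : P3) : E3 := !₂[(v.1 : ℝ), (v.2.1 : ℝ), √2 * (v.2.2 : ℝ)]

theorem dist_phi (v w : P3) : dist (phi v) (phi w) = √(q v w : ℝ) := by
  rw [EuclideanSpace.dist_eq, Fin.sum_univ_three]
  congr 1
  simp only [phi, Real.dist_eq, sq_abs, q]
  have h2 : (√2 : ℝ) ^ 2 = 2 := Real.sq_sqrt (by norm_num)
  simp only [Matrix.cons_val_zero, Matrix.cons_val_one, Matrix.cons_val]
  push_cast
  have : (√2 * (v.2.2 : ℝ) - √2 * (w.2.2 : ℝ)) ^ 2 = 2 * ((v.2.2 : ℝ) - w.2.2) ^ 2 := by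
    rw [← mul_sub, mul_pow, h2]
  rw [this]

theorem phi_inj : Function.Injective phi := by
  intro v w h
  have h1 : q v w = 0 := by
    have := dist_phi v w
    rw [h, dist_self] at this
    have h2 : (0 : ℝ) ≤ (q v w : ℝ) := by
      unfold q
      positivity
    have h3 := (Real.sqrt_eq_zero h2).1 this.symm
    exact_mod_cast h3
  obtain ⟨v1, v2, v3⟩ := v
  obtain ⟨w1, w2, w3⟩ := w
  simp only [q] at h1
  have p1 := sq_nonneg (v1 - w1)
  have p2 := sq_nonneg (v2 - w2)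
  have p3 := sq_nonneg (v3 - w3)
  have e1 : (v1 - w1) ^ 2 = 0 := by omega
  have e2 : (v2 - w2) ^ 2 = 0 := by omega
  have e3 : (v3 - w3) ^ 2 = 0 := by omega
  have e1' := pow_eq_zero_iff (two_ne_zero) |>.1 e1
  have e2' := pow_eq_zero_iff (two_ne_zero) |>.1 e2
  have e3' := pow_eq_zero_iff (two_ne_zero) |>.1 e3
  simp only [Prod.mk.injEq]
  omega

/-- the embedding -/
noncomputable def emb : P3 ↪ E3 := ⟨phi, phi_inj⟩

theorem dist_eq_two {v w : P3} (h : q v w = 4) : dist (phi v) (phi w) = 2 := by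
  rw [dist_phi, h]
  have : ((4 : ℤ) : ℝ) = 2 ^ 2 := by norm_num
  rw [this, Real.sqrt_sq (by norm_num)]

theorem two_le_dist {v w : P3} (h : 4 ≤ q v w) : 2 ≤ dist (phi v) (phi w) := by
  rw [dist_phi]
  apply Real.le_sqrt_of_sq_le
  have : ((4 : ℤ) : ℝ) ≤ (q v w : ℝ) := by exact_mod_cast h
  norm_num at this ⊢
  linarith

theorem isPacking_map (S : Finset P3) (h : ∀ v ∈ S, ∀ w ∈ S, v ≠ w → 4 ≤ q v w) :
    IsPacking (S.map emb) := by
  intro x hx y hy hxy
  rw [mem_map] at hx hy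
  obtain ⟨v, hv, rfl⟩ := hx
  obtain ⟨w, hw, rfl⟩ := hy
  rw [interior_closedBall _ one_ne_zero, interior_closedBall _ one_ne_zero]
  apply Metric.ball_disjoint_ball
  have := two_le_dist (h v hv w hw (fun e => hxy (by rw [e])))
  show (1 : ℝ) + 1 ≤ dist (phi v) (phi w)
  linarith

theorem card_cl_le (m : ℕ) (S : Finset P3) : (cl m S).card ≤ touching m (S.map emb) := by
  unfold touching
  have h1 : ((cl m S).map (Finset.mapEmbedding emb).toEmbedding : Finset (Finset E3)).card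
      = (cl m S).card := card_map _
  rw [← h1, ← Set.ncard_coe_finset]
  apply Set.ncard_le_ncard
  · intro s hs
    rw [mem_coe, mem_map] at hs
    obtain ⟨t, ht, rfl⟩ := hs
    rw [mem_cl] at ht
    refine ⟨?_, ?_, ?_⟩
    · exact map_subset_map.2 ht.1.1
    · show (t.map emb).card = m
      rw [card_map]
      exact ht.1.2
    · intro x hx y hy hxy
      have hx' : x ∈ t.map emb := hx
      have hy' : y ∈ t.map emb := hy
      rw [mem_map] at hx' hy'
      obtain ⟨v, hv, rfl⟩ := hx'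
      obtain ⟨w, hw, rfl⟩ := hy'
      exact dist_eq_two (ht.2 v hv w hw (fun e => hxy (by rw [e])))
  · apply Set.Finite.subset (s := ((S.map emb).powerset : Set (Finset E3))) (finite_toSet _)
    intro s hs
    rw [mem_coe, mem_powerset]
    exact hs.1

/-! ### Arithmetic -/

theorem three_nk (k : ℕ) : 3 * nk k = 2 * k ^ 3 + k := by
  unfold nk
  have : (2 * k ^ 3 + k) % 3 = 0 := by
    have h : k % 3 = 0 ∨ k % 3 = 1 ∨ k % 3 = 2 := by omega
    rcases h with h | h | h <;> simp [Nat.add_mod, Nat.mul_mod, Nat.pow_mod, h]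
  omega

theorem exists_heights (k : ℕ) (hk : 1000 ≤ k) : ∃ p r : ℕ, p ≤ k ∧ r ≤ k ∧
    12 * (k : ℤ) ^ 2 + 12 * k + 6 ≤ (2 * p ^ 3 + 3 * p ^ 2 + p) + (2 * r ^ 3 + 3 * r ^ 2 + r) ∧
    2 * ((2 * (p : ℤ) ^ 3 + 3 * p ^ 2 + p) + (2 * r ^ 3 + 3 * r ^ 2 + r)
      - (12 * (k : ℤ) ^ 2 + 12 * k + 6)) + 36 * k + 12 < 3 * (p ^ 2 + p) + 3 * (r ^ 2 + r) := by
  obtain ⟨M, hM⟩ : ∃ M : ℕ, M = 24 * k ^ 2 + 24 * k + 12 := ⟨_, rfl⟩
  obtain ⟨c, hc256, hck, hc1, hc2⟩ : ∃ c : ℕ, 256 ≤ c ∧ c ≤ k ∧ c ^ 3 ≤ M + c ∧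
      M + (c + 1) < (c + 1) ^ 3 := by
    have ex : ∃ c : ℕ, M + c < c ^ 3 := ⟨k + 1, by rw [hM]; nlinarith⟩
    classical
    obtain ⟨c0, hc0⟩ : ∃ c0, c0 = Nat.find ex := ⟨_, rfl⟩
    have h1 : M + c0 < c0 ^ 3 := hc0 ▸ Nat.find_spec ex
    have h2 : c0 ≤ k + 1 := hc0 ▸ Nat.find_min' ex (by rw [hM]; nlinarith)
    have h3 : 257 ≤ c0 := by
      by_contra hcon
      have h4 : c0 ≤ 256 := by omega
      have h5 : c0 ^ 3 ≤ 256 ^ 3 := Nat.pow_le_pow_left h4 3
      have h6 : 24 * 1000 ^ 2 ≤ M := by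
        rw [hM]
        nlinarith
      omega
    refine ⟨c0 - 1, by omega, by omega, ?_, ?_⟩
    · have := Nat.find_min ex (m := c0 - 1) (by rw [← hc0]; omega)
      omega
    · rw [Nat.sub_add_cancel (by omega)]
      exact h1
  obtain ⟨d, hpar, hd1, hd2, hX⟩ : ∃ d : ℕ, (c + d) % 2 = 1 ∧ M + c ≤ c ^ 3 + 3 * c * d ^ 2 ∧
      16 * d ≤ c + 32 ∧ 4 * (c ^ 3 + 3 * c * d ^ 2) ≤ 4 * (M + c) + 3 * c ^ 2 + 48 * c := by
    obtain ⟨ε, hε⟩ : ∃ ε, ε = (c + 1) % 2 := ⟨_, rfl⟩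
    have ex : ∃ e : ℕ, M + c ≤ c ^ 3 + 3 * c * (2 * e + ε) ^ 2 := by
      refine ⟨c, ?_⟩
      have h1 : (c + 1) ^ 3 ≤ (2 * c) ^ 3 := Nat.pow_le_pow_left (by omega) 3
      have h2 : (2 * c) ^ 2 ≤ (2 * c + ε) ^ 2 := Nat.pow_le_pow_left (by omega) 2
      have h3 : 3 * c * (2 * c) ^ 2 ≤ 3 * c * (2 * c + ε) ^ 2 := Nat.mul_le_mul_left _ h2
      have h4 : 3 * c * (2 * c) ^ 2 = 12 * c ^ 3 := by ring
      have h5 : (2 * c) ^ 3 = 8 * c ^ 3 := by ring
      omega
    classical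
    obtain ⟨e, he⟩ : ∃ e, e = Nat.find ex := ⟨_, rfl⟩
    have h1 : M + c ≤ c ^ 3 + 3 * c * (2 * e + ε) ^ 2 := he ▸ Nat.find_spec ex
    refine ⟨2 * e + ε, by omega, h1, ?_⟩
    rcases Nat.eq_zero_or_pos e with h0 | h0
    · rw [h0]
      have hε1 : ε ≤ 1 := by omega
      have h2 : (2 * 0 + ε) ^ 2 ≤ 1 := by
        have : (2 * 0 + ε) ^ 2 ≤ 1 ^ 2 := Nat.pow_le_pow_left (by omega) 2
        simpa using this
      refine ⟨by omega, ?_⟩
      nlinarith
    · obtain ⟨e', rfl⟩ : ∃ e', e = e' + 1 := ⟨e - 1, by omega⟩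
      have h2 := Nat.find_min ex (m := e') (by rw [← he]; omega)
      push Not at h2
      obtain ⟨s, hs⟩ : ∃ s, s = 2 * e' + ε := ⟨_, rfl⟩
      have hs' : 2 * (e' + 1) + ε = s + 2 := by omega
      rw [← hs] at h2
      rw [hs'] at h1 ⊢
      have h3 : s ^ 2 ≤ c := by
        by_contra hcon
        have h4 : c + 1 ≤ s ^ 2 := by omega
        have h5 : 3 * c * (c + 1) ≤ 3 * c * s ^ 2 := Nat.mul_le_mul_left _ h4
        have h6 : (c + 1) ^ 3 = c ^ 3 + 3 * c * (c + 1) + 1 := by ring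
        omega
      have h4 : 16 * s ≤ c := by
        by_contra hcon
        have h5 : c + 1 ≤ 16 * s := by omega
        have h6 : (c + 1) ^ 2 ≤ (16 * s) ^ 2 := Nat.pow_le_pow_left h5 2
        nlinarith
      refine ⟨by omega, ?_⟩
      have h7 : c * (16 * s) ≤ c * c := Nat.mul_le_mul_left _ h4
      nlinarith
  have hdc : d + 1 ≤ c := by omega
  obtain ⟨p, hp⟩ : ∃ p, c + d = 2 * p + 1 := ⟨(c + d) / 2, by omega⟩
  obtain ⟨r, hr⟩ : ∃ r, c = d + 2 * r + 1 := ⟨(c - d) / 2, by omega⟩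
  refine ⟨p, r, by omega, by omega, ?_⟩
  have hc : (c : ℤ) = p + r + 1 := by omega
  have hd : (d : ℤ) = p - r := by omega
  have hid : 2 * ((2 * (p : ℤ) ^ 3 + 3 * p ^ 2 + p) + (2 * r ^ 3 + 3 * r ^ 2 + r))
      = c ^ 3 + 3 * c * d ^ 2 - c := by
    rw [hc, hd]
    ring
  have hid2 : 2 * ((p : ℤ) ^ 2 + p + (r ^ 2 + r)) = c ^ 2 + d ^ 2 - 1 := by
    rw [hc, hd]
    ring
  have hd1' : (M : ℤ) + c ≤ c ^ 3 + 3 * c * d ^ 2 := by exact_mod_cast hd1
  have hX' : 4 * ((c : ℤ) ^ 3 + 3 * c * d ^ 2) ≤ 4 * (M + c) + 3 * c ^ 2 + 48 * c := by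
    exact_mod_cast hX
  have hM' : (M : ℤ) = 24 * k ^ 2 + 24 * k + 12 := by exact_mod_cast hM
  have hc2' : (M : ℤ) + (c + 1) < (c + 1) ^ 3 := by exact_mod_cast hc2
  have hc256' : (256 : ℤ) ≤ c := by exact_mod_cast hc256
  have hk0 : (0 : ℤ) ≤ k := by positivity
  have h150 : 150 * ((c : ℤ) + 1) ^ 3 ≤ c ^ 4 := by
    obtain ⟨x, hx⟩ : ∃ x : ℤ, (c : ℤ) = 256 + x := ⟨c - 256, by ring⟩
    have hx0 : 0 ≤ x := by omega
    rw [hx]
    have : (256 + x) ^ 4 - 150 * (256 + x + 1) ^ 3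
        = x ^ 4 + 874 * x ^ 3 + 277566 * x ^ 2 + 37386814 * x + 1748778346 := by ring
    have h2 : 0 ≤ x ^ 4 + 874 * x ^ 3 + 277566 * x ^ 2 + 37386814 * x + 1748778346 := by positivity
    linarith
  have h60 : 60 * (k : ℤ) ≤ c ^ 2 := by
    by_contra hcon
    push Not at hcon
    have h1 : (c : ℤ) ^ 2 * c ^ 2 ≤ (60 * k) * (60 * k) :=
      mul_le_mul hcon.le hcon.le (by positivity) (by positivity)
    nlinarith
  constructor
  · linarith
  · nlinarith [sq_nonneg (d : ℤ)]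

/-- The number of touching triplets is not maximal for the octahedral packing, for every
`k ≥ 1000`. -/
theorem main (k : ℕ) (hk : 1000 ≤ k) : ∃ C : Finset E3, IsPacking C ∧ C.card = nk k ∧
    tk k < (touching 3 C : ℚ) ∧ qk k < (touching 4 C : ℚ) := by
  obtain ⟨p, r, hp, hr, h1, h2⟩ := exists_heights k hk
  obtain ⟨a, ha⟩ : ∃ a, a + p = k := ⟨k - p, by omega⟩
  obtain ⟨b, hb⟩ : ∃ b, b + r = k := ⟨k - r, by omega⟩
  have hK : ((k + 1 : ℕ) : ℤ) = (k : ℤ) + 1 := by push_cast; ring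
  have ha' : (a : ℤ) = k - p := by omega
  have hb' : (b : ℤ) = k - r := by omega
  have hn : 3 * (nk k : ℤ) = 2 * k ^ 3 + k := by exact_mod_cast three_nk k
  obtain ⟨S0, _, hS0, _⟩ := exists_config (k + 1) a b 0 (by omega) (by omega)
  have hle : S0.card ≤ nk k := by
    rw [hK, ha', hb'] at hS0
    have : (S0.card : ℤ) ≤ nk k := by
      push_cast at hS0
      nlinarith
    exact_mod_cast this
  obtain ⟨L, hL⟩ : ∃ L, S0.card + L = nk k := ⟨nk k - S0.card, by omega⟩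
  obtain ⟨S, hS1, hS2, hS3, hS4⟩ := exists_config (k + 1) a b L (by omega) (by omega)
  refine ⟨S.map emb, isPacking_map S hS1, ?_, ?_, ?_⟩
  · rw [card_map]
    push_cast at hS0 hS2
    have : (S.card : ℤ) = nk k := by
      have hL' : (S0.card : ℤ) + L = nk k := by exact_mod_cast hL
      linarith
    exact_mod_cast this
  · have h3 := card_cl_le 3 S
    have h4 : 4 * ((k : ℤ) - 1) * k * (4 * k - 5) < 3 * ((cl 3 S).card : ℤ) := by
      refine lt_of_lt_of_le ?_ hS3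
      rw [hK, ha', hb']
      nlinarith
    have h5 : 4 * ((k : ℤ) - 1) * k * (4 * k - 5) < 3 * (touching 3 (S.map emb) : ℤ) := by
      have : ((cl 3 S).card : ℤ) ≤ (touching 3 (S.map emb) : ℤ) := by exact_mod_cast h3
      linarith
    have h6 : 4 * ((k : ℚ) - 1) * k * (4 * k - 5) < 3 * (touching 3 (S.map emb) : ℚ) := by
      exact_mod_cast h5
    unfold tk
    linarith
  · have h3 := card_cl_le 4 S
    have h4 : 4 * ((k : ℤ) - 2) * (k - 1) * k < 3 * ((cl 4 S).card : ℤ) := by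
      refine lt_of_lt_of_le ?_ hS4
      rw [hK, ha', hb']
      nlinarith
    have h5 : 4 * ((k : ℤ) - 2) * (k - 1) * k < 3 * (touching 4 (S.map emb) : ℤ) := by
      have : ((cl 4 S).card : ℤ) ≤ (touching 4 (S.map emb) : ℤ) := by exact_mod_cast h3
      linarith
    have h6 : 4 * ((k : ℚ) - 2) * (k - 1) * k < 3 * (touching 4 (S.map emb) : ℚ) := by
      exact_mod_cast h5
    unfold qk
    linarith

/-- **Both questions have a negative answer.** For every `k ≥ 1000` there is a packing of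
`n_k = (2 k ^ 3 + k) / 3` unit balls in Euclidean 3-space with more than
`t_k = (4 / 3) (k - 1) k (4 k - 5)` touching triplets and more than
`q_k = (4 / 3) (k - 2) (k - 1) k` touching quadruples. So there is no `k₃` (and no `k₄`) as asked
in Q1 (and in Q2). -/
theorem result : ¬ Q1 ∧ ¬ Q2 ∧ ∀ k : ℕ, 1000 ≤ k → ∃ C : Finset E3,
    IsPacking C ∧ C.card = nk k ∧ tk k < (touching 3 C : ℚ) ∧ qk k < (touching 4 C : ℚ) := by
  refine ⟨?_, ?_, main⟩
  · rintro ⟨k₃, _, h⟩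
    obtain ⟨C, h1, h2, h3, _⟩ := main (k₃ + 1000) (by omega)
    exact absurd (h _ (by omega) C h1 h2) (not_le.2 h3)
  · rintro ⟨k₄, _, h⟩
    obtain ⟨C, h1, h2, _, h3⟩ := main (k₄ + 1000) (by omega)
    exact absurd (h _ (by omega) C h1 h2) (not_le.2 h3)

end Pool.Agent.Results.MP_b59a08_co.TruncatedOctahedra
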